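import Pool.Agent.Y740.Z.Stm
import Pool.Agent.H388SL.DobC
import Pool.Agent.Y740.Main1

/-!
# A lower bound for heights relative to cyclotomic fields
-/

set_option autoImplicit false

open Finset Polynomial Module NumberField Height

namespace Pool.Agent.Y100.ZF

/-- a Galois number field containing `K` -/
theorem exists_emb (K : Type) [Field K] [NumberField K] :
    ∃ (W : IntermediateField ℚ (AlgebraicClosure ℚ)) (_ : NumberField W) (_ : IsGalois ℚ W),
      Nonempty (K →ₐ[ℚ] W) := by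
  let φ : K →ₐ[ℚ] AlgebraicClosure ℚ := IsAlgClosed.lift
  obtain ⟨W, h1, h2, h3⟩ := Pool.Agent.Y740.exists_galois
    (Set.range fun i => φ (Module.finBasis ℚ K i)) (Set.finite_range _)
  have h4 : ∀ x : K, φ x ∈ W := by
    intro x
    rw [← (Module.finBasis ℚ K).sum_repr x, map_sum]
    refine sum_mem fun i _ => ?_
    rw [Algebra.smul_def, map_mul, AlgHom.commutes, ← Algebra.smul_def]
    exact W.smul_mem (h3 _ ⟨i, rfl⟩)
  exact ⟨W, h1, h2, ⟨φ.codRestrict W.toSubalgebra h4⟩⟩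

theorem deg_le {K W : Type} [Field K] [NumberField K] [Field W] [NumberField W] (ι : K →ₐ[ℚ] W)
    {M : ℕ} (hM : 0 < M) {ζ : K} (hζ : IsPrimitiveRoot ζ M) (g : K) :
    (minpoly (IntermediateField.adjoin ℚ {ι ζ}) (ι g)).natDegree * Nat.totient M ≤
      finrank ℚ K := by
  have hζ' : IsPrimitiveRoot (ι ζ) M := hζ.map_of_injective (f := ι) ι.injective
  set L := IntermediateField.adjoin ℚ {ι ζ} with hL
  have hLf : finrank ℚ L = Nat.totient M := by
    rw [hL, IntermediateField.adjoin.finrank (Algebra.IsIntegral.isIntegral _),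
      ← cyclotomic_eq_minpoly_rat hζ' hM, natDegree_cyclotomic]
  have h1 : finrank L (IntermediateField.adjoin L {ι g}) = (minpoly L (ι g)).natDegree :=
    IntermediateField.adjoin.finrank (Algebra.IsIntegral.isIntegral _)
  have h2 : finrank ℚ L * finrank L (IntermediateField.adjoin L {ι g}) =
      finrank ℚ (IntermediateField.adjoin L {ι g}) := Module.finrank_mul_finrank ℚ L _
  have h3 : (IntermediateField.adjoin L {ι g}).restrictScalars ℚ ≤ ι.fieldRange := by
    have h4 : L ≤ ι.fieldRange := by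
      rw [hL, IntermediateField.adjoin_simple_le_iff]
      exact ⟨ζ, rfl⟩
    have h5 : IntermediateField.adjoin L {ι g} ≤ IntermediateField.extendScalars h4 := by
      rw [IntermediateField.adjoin_simple_le_iff, IntermediateField.mem_extendScalars]
      exact ⟨g, rfl⟩
    intro x hx
    exact (IntermediateField.mem_extendScalars h4).mp (h5 hx)
  have h4 : finrank ℚ ι.fieldRange = finrank ℚ K :=
    (LinearEquiv.finrank_eq (AlgEquiv.ofInjectiveField ι).toLinearEquiv).symm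
  have h5 : finrank ℚ ((IntermediateField.adjoin L {ι g}).restrictScalars ℚ) ≤
      finrank ℚ ι.fieldRange := by
    have h6 : (((IntermediateField.adjoin L {ι g}).restrictScalars ℚ).toSubalgebra.toSubmodule) ≤
        ι.fieldRange.toSubalgebra.toSubmodule := h3
    exact Submodule.finrank_mono h6
  have h6 : finrank ℚ ((IntermediateField.adjoin L {ι g}).restrictScalars ℚ) =
      finrank ℚ (IntermediateField.adjoin L {ι g}) := rfl
  rw [← h1, ← hLf, mul_comm, h2, ← h6, ← h4]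
  exact h5

theorem card_div {M : ℕ} (hM : 0 < M) (B : Finset ℕ) (hB : ∀ p ∈ B, p.Prime ∧ p ∣ M) :
    2 ^ B.card ≤ M := by
  have h1 : ∏ p ∈ B, p ∣ M := Finset.prod_primes_dvd M (fun p hp => (hB p hp).1.prime)
    fun p hp => (hB p hp).2
  refine le_trans ?_ (Nat.le_of_dvd hM h1)
  exact Finset.pow_card_le_prod B _ 2 fun p hp => (hB p hp).1.two_le

/-- RD -/
theorem t_RD : Pool.Agent.Y740.Z.S_BAD → Pool.Agent.Y740.Z.S_TOT → Pool.Agent.Y740.Z.S_RDI →
    Pool.Agent.Y740.Z.S_RD := by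
  intro hBAD hTOT hRDI
  obtain ⟨Y0, hY01, hY0⟩ := Pool.Agent.H388SL.exists_Y0
  set C : ℝ := max 64 (Y0 / (Real.log 2) ^ 2) with hC
  have hC64 : 64 ≤ C := le_max_left _ _
  have hCY : (Y0 : ℝ) / (Real.log 2) ^ 2 ≤ C := le_max_right _ _
  have hlog2 : 0 < Real.log 2 := Real.log_pos (by norm_num)
  refine ⟨1 / (64 * (C + 3) ^ 2) / 27, by positivity, ?_⟩
  intro K _ _ M ζ hM hζ g hg0 hgroot
  classical
  obtain ⟨W, hW1, hW2, ⟨ι⟩⟩ := exists_emb K
  have hζ' : IsPrimitiveRoot (ι ζ) M := hζ.map_of_injective (f := ι) ι.injective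
  have hα0 : ι g ≠ 0 := (map_ne_zero ι).mpr hg0
  have hαroot : ∀ k : ℕ, 0 < k → (ι g) ^ k ≠ 1 := by
    intro k hk h
    apply hgroot k hk
    apply ι.injective
    rw [map_pow, map_one]
    exact h
  obtain ⟨D, hD⟩ : ∃ D : ℕ, (minpoly (IntermediateField.adjoin ℚ {ι ζ}) (ι g)).natDegree = D :=
    ⟨_, rfl⟩
  have hD0 : 1 ≤ D := by
    rw [← hD]
    exact minpoly.natDegree_pos (Algebra.IsIntegral.isIntegral _)
  obtain ⟨n, hn⟩ : ∃ n : ℕ, finrank ℚ K = n := ⟨_, rfl⟩
  have hDn : D * Nat.totient M ≤ n := by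
    rw [← hD, ← hn]
    exact deg_le ι hM hζ g
  have hφ : 1 ≤ Nat.totient M := Nat.totient_pos.mpr hM
  have hDn' : D ≤ n := le_trans (Nat.le_mul_of_pos_right D hφ) hDn
  have hφn : Nat.totient M ≤ n := le_trans (Nat.le_mul_of_pos_left _ hD0) hDn
  have hn0 : 1 ≤ n := hD0.trans hDn'
  have hn1 : (1 : ℝ) ≤ n := by exact_mod_cast hn0
  have hD1 : (1 : ℝ) ≤ D := by exact_mod_cast hD0
  have hDnR : (D : ℝ) ≤ n := by exact_mod_cast hDn'
  have hnpos : (0 : ℝ) < n := by linarith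
  -- the height
  have hh : logHeight₁ (ι g) / finrank ℚ W = logHeight₁ g / n := by
    have h1 := Pool.Agent.Y740.ht_eq (K := W) (algebraMap W (AlgebraicClosure ℚ)) (ι g)
    have h2 := Pool.Agent.Y740.ht_eq (K := K)
      ((algebraMap W (AlgebraicClosure ℚ)).comp (ι : K →+* W)) g
    rw [hn] at h2
    rw [← h1, ← h2]
    rfl
  have hg1 : 0 ≤ logHeight₁ g := zero_le_logHeight₁ _
  set l2 := Real.log (2 * n) with hl2def
  set l := 3 * l2 with hl
  have hl22 : Real.log 2 ≤ l2 := Real.log_le_log (by norm_num) (by linarith)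
  have hl20 : 0 < l2 := by linarith
  have hl2 : Real.log 2 ≤ l := by linarith
  have hl0 : 0 < l := by linarith
  have hld : Real.log D ≤ l := by
    have h1 : Real.log D ≤ l2 := Real.log_le_log (by linarith) (by linarith)
    linarith
  set Y : ℕ := ⌈C * l ^ 2⌉₊ with hYdef
  have hYge : C * l ^ 2 ≤ Y := Nat.le_ceil _
  have hYle : (Y : ℝ) ≤ C * l ^ 2 + 1 := (Nat.ceil_lt_add_one (by positivity)).le
  have hY0Y : Y0 ≤ Y := by
    have h1 : (Y0 : ℝ) ≤ Y := by
      calc (Y0 : ℝ) = Y0 / (Real.log 2) ^ 2 * (Real.log 2) ^ 2 := by field_simp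
        _ ≤ C * l ^ 2 := by gcongr
        _ ≤ Y := hYge
    exact_mod_cast h1
  have hY1 : 1 ≤ Y := hY01.trans hY0Y
  have hY1' : (1 : ℝ) ≤ Y := by exact_mod_cast hY1
  have hasy := hY0 Y hY0Y
  set r := Real.sqrt Y with hr
  have hr2 : r ^ 2 = Y := Real.sq_sqrt (Nat.cast_nonneg Y)
  have hr1 : 1 ≤ r := by
    rw [hr, ← Real.sqrt_one]; exact Real.sqrt_le_sqrt hY1'
  have hlr : 8 * l ≤ r := by
    rw [hr]
    apply Real.le_sqrt_of_sq_le
    nlinarith [sq_nonneg l]
  -- the sets of primes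
  set T : Finset ℕ := (Finset.Ioc 0 Y).filter Nat.Prime with hT
  set P := T.filter (fun p => ¬ p ∣ M ∧
    (minpoly (IntermediateField.adjoin ℚ {ι ζ}) ((ι g) ^ p)).natDegree = D) with hP
  set B := T.filter (fun p => ¬ (¬ p ∣ M ∧
    (minpoly (IntermediateField.adjoin ℚ {ι ζ}) ((ι g) ^ p)).natDegree = D)) with hB
  set B1 := T.filter (fun p => p ∣ M) with hB1
  set B2 := T.filter (fun p =>
    (minpoly (IntermediateField.adjoin ℚ {ι ζ}) ((ι g) ^ p)).natDegree ≠ D) with hB2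
  have hTp : ∀ p ∈ T, p.Prime ∧ p ≤ Y := by
    intro p hp
    rw [hT, Finset.mem_filter, Finset.mem_Ioc] at hp
    exact ⟨hp.2, hp.1.2⟩
  have hth : Chebyshev.theta Y = ∑ p ∈ T, Real.log p := by
    rw [Chebyshev.theta, Nat.floor_natCast]
  have hsplit : ∑ p ∈ T, Real.log p = ∑ p ∈ P, Real.log p + ∑ p ∈ B, Real.log p :=
    (Finset.sum_filter_add_sum_filter_not T _ _).symm
  have hBsub : B ⊆ B1 ∪ B2 := by
    intro p hp
    obtain ⟨h1, h2⟩ := Finset.mem_filter.mp hp
    by_cases h3 : p ∣ M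
    · exact Finset.mem_union_left _ (Finset.mem_filter.mpr ⟨h1, h3⟩)
    · exact Finset.mem_union_right _ (Finset.mem_filter.mpr ⟨h1, fun h4 => h2 ⟨h3, h4⟩⟩)
  have hBcard' : (B.card : ℝ) ≤ B1.card + B2.card := by
    exact_mod_cast (Finset.card_le_card hBsub).trans (Finset.card_union_le _ _)
  have hB1card : (B1.card : ℝ) * Real.log 2 ≤ 2 * l2 := by
    have h1 := card_div hM B1 fun p hp =>
      ⟨(hTp p (Finset.mem_filter.mp hp).1).1, (Finset.mem_filter.mp hp).2⟩
    have h2 : 2 ^ B1.card ≤ (2 * n) ^ 2 := by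
      refine h1.trans ((hTOT M).trans ?_)
      have h3 : Nat.totient M ^ 2 ≤ n ^ 2 := Nat.pow_le_pow_left hφn 2
      nlinarith
    have h3 : ((2 : ℝ) ^ B1.card) ≤ (2 * n) ^ 2 := by exact_mod_cast h2
    have h4 := Real.log_le_log (by positivity) h3
    rw [Real.log_pow, Real.log_pow] at h4
    push_cast at h4
    exact h4
  have hB2card : (B2.card : ℝ) * Real.log 2 ≤ l2 := by
    have h1 := hBAD W (IntermediateField.adjoin ℚ {ι ζ}) (ι g) hα0 B2
      (fun p hp => (hTp p (Finset.mem_filter.mp hp).1).1)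
      (fun p hp => by
        rw [hD]
        exact (Finset.mem_filter.mp hp).2)
    rw [hD] at h1
    have h2 : ((2 : ℝ) ^ B2.card) ≤ D := by exact_mod_cast h1
    have h3 := Real.log_le_log (by positivity) (h2.trans (show (D : ℝ) ≤ 2 * n by linarith))
    rw [Real.log_pow] at h3
    exact h3
  have hBcard : (B.card : ℝ) * Real.log 2 ≤ l := by
    have h1 := mul_le_mul_of_nonneg_right hBcard' hlog2.le
    rw [add_mul] at h1
    linarith
  have hBsum : ∑ p ∈ B, Real.log p ≤ B.card * Real.log Y := by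
    rw [← nsmul_eq_mul]
    apply Finset.sum_le_card_nsmul
    intro p hp
    have h1 := hTp p (Finset.mem_filter.mp hp).1
    apply Real.log_le_log
    · exact_mod_cast h1.1.pos
    · exact_mod_cast h1.2
  have hlogY : Real.log Y ≤ Real.log (2 * Y) := by
    apply Real.log_le_log (by linarith); linarith
  have hlogY0 : 0 ≤ Real.log Y := Real.log_nonneg hY1'
  have hlogr : Real.log (2 * Y) ≤ r / 32 := by linarith
  have hlog2' := Real.log_two_gt_d9
  have hBs2 : ∑ p ∈ B, Real.log p ≤ Y / 4 := by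
    have h1 : (B.card : ℝ) ≤ r / 4 := by
      have : (B.card : ℝ) * (1/2) ≤ B.card * Real.log 2 := by
        apply mul_le_mul_of_nonneg_left _ (Nat.cast_nonneg _); linarith
      linarith
    calc ∑ p ∈ B, Real.log p ≤ B.card * Real.log Y := hBsum
      _ ≤ (r / 4) * (r / 32) := by
        apply mul_le_mul h1 (by linarith) hlogY0 (by linarith)
      _ ≤ Y / 4 := by rw [← hr2]; nlinarith
  have hPsum : (Y : ℝ) / 4 ≤ ∑ p ∈ P, Real.log p := by
    have h1 := Pool.Agent.H388SL.theta_half hY0 Y hY0Y hY1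
    rw [hth, hsplit] at h1
    linarith
  have hN1 : (1 : ℝ) ≤ D * (2 * Y) ^ 2 := by
    have : (1 : ℝ) ≤ (2 * Y) ^ 2 := by nlinarith
    nlinarith
  have hmain := hRDI W M (ι ζ) hM hζ' (ι g) hα0 hαroot D hD P
    (fun p hp => ⟨(hTp p (Finset.mem_filter.mp hp).1).1, (Finset.mem_filter.mp hp).2.1,
      (Finset.mem_filter.mp hp).2.2⟩) r (D * (2 * Y) ^ 2) (by linarith) hN1
  rw [hh] at hmain
  have hPcard : (P.card : ℝ) ≤ Y := by
    have h1 : P.card ≤ (Finset.Ioc 0 Y).card := by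
      apply Finset.card_le_card
      exact (Finset.filter_subset _ _).trans (Finset.filter_subset _ _)
    rw [Nat.card_Ioc] at h1
    exact_mod_cast (by omega : P.card ≤ Y)
  have hPp : ∑ p ∈ P, (p : ℝ) ≤ Y * Y := by
    calc ∑ p ∈ P, (p : ℝ) ≤ P.card • (Y : ℝ) := by
          apply Finset.sum_le_card_nsmul
          intro p hp
          exact_mod_cast (hTp p (Finset.mem_filter.mp hp).1).2
      _ = P.card * Y := by rw [nsmul_eq_mul]
      _ ≤ Y * Y := by gcongr
  have hPp0 : 0 ≤ ∑ p ∈ P, (p : ℝ) := Finset.sum_nonneg fun _ _ => Nat.cast_nonneg _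
  have hfin := Pool.Agent.H388SL.real_final hC64 hl0 hlog2' hl2 hld hD1 hYge hYle hY1' hr2 hr1
    hlr hasy hPsum (Nat.cast_nonneg _) hPcard hPp0 hPp
    (show 0 ≤ (D : ℝ) * (logHeight₁ g / n) by positivity) hN1 hmain
  -- the conclusion
  rw [hn]
  have e1 : l ^ 3 = 27 * l2 ^ 3 := by
    rw [hl]
    ring
  rw [e1] at hfin
  have hφD : (D : ℝ) * Nat.totient M ≤ n := by exact_mod_cast hDn
  have hl3 : 0 < l2 ^ 3 := by positivity
  have e2 : 1 / (64 * (C + 3) ^ 2) / 27 * (Nat.totient M : ℝ) / l2 ^ 3 =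
      Nat.totient M * (1 / (64 * (C + 3) ^ 2) / (27 * l2 ^ 3)) := by
    field_simp
  have h1 : (Nat.totient M : ℝ) * (1 / (64 * (C + 3) ^ 2) / (27 * l2 ^ 3)) ≤
      Nat.totient M * ((D : ℝ) * (logHeight₁ g / n)) :=
    mul_le_mul_of_nonneg_left hfin (Nat.cast_nonneg _)
  have h2 : (Nat.totient M : ℝ) * ((D : ℝ) * (logHeight₁ g / n)) ≤ logHeight₁ g := by
    have e3 : (Nat.totient M : ℝ) * ((D : ℝ) * (logHeight₁ g / n)) =
        ((D : ℝ) * Nat.totient M) * logHeight₁ g / n := by ring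
    rw [e3, div_le_iff₀ hnpos, mul_comm (logHeight₁ g)]
    exact mul_le_mul_of_nonneg_right hφD hg1
  rw [e2]
  exact h1.trans h2

end Pool.Agent.Y100.ZF
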